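import Pool.Agent.Y392.LP.Inf
import Pool.Agent.Y392.LP.K5
import Pool.Agent.Results.MP_e21097_co.ArboricityTwo

set_option autoImplicit false

/-!
# List packing and correspondence packing: arboricity two, infinite graphs, more colours, sharpness

The starting result `CorrBipartiteFour` shows that the correspondence packing number of the class of
planar bipartite graphs is `4`. Here both packing numbers are determined for every class of graphs
between the bipartite planar graphs and the graphs of arboricity at most two (equivalently, at most
`2 |W| - 2` edges on every nonempty vertex set `W`), the packings are found for every number `k ≥ 4`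
of colours and in infinite graphs as well, for covers with arbitrary matchings, and the bound
`2 |W| - 2` is shown to be sharp.
-/

namespace Pool.Agent.Results.MP_6a62cd_co.ArboricityTwoCovers

open Pool.Agent.TH455
open Pool.Agent.H239R2.Planar (HasStraightLineDrawing)
open Pool.Agent.Results.MP_e21097_co.ArboricityTwo (TwoForests SpansFew)

/-- (1) Let `G` be a finite or infinite graph whose edges are covered by two forests, or all of
whose nonempty finite vertex sets `W` span at most `2 |W| - 2` edges, and let `k ≥ 4`. Then every
assignment of lists of `k` colours has a packing, and so has every `k`-fold cover of `G`, with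
perfect or with arbitrary matchings along the edges.
(2) For every class `P` of graphs which contains all bipartite graphs with a straight-line drawing
in the plane and only contains graphs as in (1), the maximum of the list packing number and the
maximum of the correspondence packing number over the finite graphs of the class are both `4`.
(3) The bound `2 |W| - 2` is sharp: there is a graph on five vertices (`K₅` minus an edge) in which
every nonempty `W` spans at most `2 |W| - 1` edges and which has a `4`-fold cover without a
packing. -/
theorem result :
    (∀ (V : Type) (G : SimpleGraph V), TwoForests G ∨ SpansFew G → ∀ k : ℕ, 4 ≤ k →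
      ListPackable G k ∧ CorrPackable G k ∧ ∀ C : Cover G k, C.HasPacking) ∧
    (∀ P : (V : Type) → SimpleGraph V → Prop,
      (∀ (V : Type) [Finite V] (G : SimpleGraph V), HasStraightLineDrawing G → G.Colorable 2 →
        P V G) →
      (∀ (V : Type) [Finite V] (G : SimpleGraph V), P V G → TwoForests G ∨ SpansFew G) →
      IsGreatest {k : ℕ | ∃ (V : Type) (_ : Finite V) (G : SimpleGraph V),
        P V G ∧ listPackingNumber G = k} 4 ∧
      IsGreatest {k : ℕ | ∃ (V : Type) (_ : Finite V) (G : SimpleGraph V),
        P V G ∧ corrPackingNumber G = k} 4) ∧
    ∃ G : SimpleGraph (Fin 5),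
      (∀ W : Finset (Fin 5), W.Nonempty →
        {e ∈ G.edgeSet | ∀ v ∈ e, v ∈ W}.ncard + 1 ≤ 2 * W.card) ∧
      ∃ C : Cover G 4, ¬ C.HasPacking := by
  refine ⟨?_, Pool.Agent.Results.MP_e21097_co.ArboricityTwo.result.2,
    K5m.G, Pool.Agent.Y392.LP.k5_few, Pool.Agent.Y392.LP.k5_no_packing⟩
  intro V G hG k hk
  have hsp : Sparse (gi G) :=
    hG.elim Pool.Agent.Results.MP_e21097_co.ArboricityTwo.sparse_of_forests
      Pool.Agent.Results.MP_e21097_co.ArboricityTwo.sparse_of_spans
  have h := Pool.Agent.Y392.LP.corr_all hsp hk
  exact ⟨listPackable_of_corrPackable h, h,
    fun C => Pool.Agent.Y392.LP.cover_of_corr (by omega) h C⟩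

end Pool.Agent.Results.MP_6a62cd_co.ArboricityTwoCovers
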